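import Mathlib
import Pool.Agent.H705R2.ABC3.Main3

namespace Pool.Agent.Results.MP_7aad9f_nt.FewExceptions

/-- the radical `R(m)`: the product of the distinct primes dividing `m` -/
def R (m : ℕ) : ℕ := ∏ p ∈ m.primeFactors, p

/-- the triples `(a, b, c)` of coprime positive integers with `a + b = c ≤ X` and
`c > K * R (abc) ^ (1 + ε)` -/
def Exceptions (K ε : ℝ) (X : ℕ) : Set (ℕ × ℕ × ℕ) :=
  {t | 0 < t.1 ∧ 0 < t.2.1 ∧ Nat.Coprime t.1 t.2.1 ∧ t.1 + t.2.1 = t.2.2 ∧ t.2.2 ≤ X ∧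
    K * (R (t.1 * t.2.1 * t.2.2) : ℝ) ^ (1 + ε) < (t.2.2 : ℝ)}

theorem sub_excB (K ε : ℝ) (hK : 0 < K) (hε : 0 ≤ ε) (X : ℕ) :
    Exceptions K ε X ⊆
      Pool.Agent.H705R2.ABC2.ExcB ((K⁻¹) ^ (1 / (1 + ε))) (1 / (1 + ε)) X := by
  rintro ⟨a, b, c⟩ ⟨ha, hb, hab, habc, hc, hr⟩
  simp only at ha hb hab habc hc hr
  refine ⟨ha, hb, hab, habc, hc, ?_⟩
  show (R (a * b * c) : ℝ) ≤ (K⁻¹) ^ (1 / (1 + ε)) * (c : ℝ) ^ (1 / (1 + ε))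
  have h1 : 0 < 1 + ε := by linarith
  have h0 : (0 : ℝ) ≤ (R (a * b * c) : ℝ) := Nat.cast_nonneg _
  have hc0 : (0 : ℝ) ≤ (c : ℝ) := Nat.cast_nonneg _
  rw [← Real.mul_rpow (inv_nonneg.mpr hK.le) hc0]
  have h2 : (R (a * b * c) : ℝ) ^ (1 + ε) ≤ K⁻¹ * c := by
    rw [← div_eq_inv_mul, le_div_iff₀ hK]
    linarith
  calc (R (a * b * c) : ℝ) = ((R (a * b * c) : ℝ) ^ (1 + ε)) ^ (1 / (1 + ε)) := by
        rw [← Real.rpow_mul h0, mul_one_div_cancel h1.ne', Real.rpow_one]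
    _ ≤ (K⁻¹ * c) ^ (1 / (1 + ε)) :=
        Real.rpow_le_rpow (Real.rpow_nonneg h0 _) h2 (by positivity)

/-- For all `ε ≥ 0`, `K > 0` and `δ > 0` there is `C` such that for every `X ≥ 1` there are at
most `C * X ^ (min (6 / 11) (4 / (7 (1 + ε))) + δ)` triples `(a, b, c)` of coprime positive
integers with `a + b = c ≤ X` and `c > K * R (abc) ^ (1 + ε)`. -/
theorem result (ε : ℝ) (hε : 0 ≤ ε) (K : ℝ) (hK : 0 < K) (δ : ℝ) (hδ : 0 < δ) :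
    ∃ C : ℝ, ∀ X : ℕ, 1 ≤ X →
      (Exceptions K ε X).Finite ∧
      ((Exceptions K ε X).ncard : ℝ) ≤
        C * (X : ℝ) ^ (min (6 / 11) (4 / (7 * (1 + ε))) + δ) := by
  have h1 : 0 < 1 + ε := by linarith
  have hl0 : 0 < 1 / (1 + ε) := by positivity
  have hl1 : 1 / (1 + ε) ≤ 1 := by
    rw [div_le_one h1]
    linarith
  obtain ⟨C₁, hC₁⟩ := Pool.Agent.H705R2.ABC2.count_B ((K⁻¹) ^ (1 / (1 + ε))) (1 / (1 + ε)) δ hδ
  obtain ⟨C₂, hC₂⟩ := Pool.Agent.H705R2.ABC3.count_B3 ((K⁻¹) ^ (1 / (1 + ε))) (1 / (1 + ε)) δ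
    hl0 hl1 hδ
  have hmax : max (1 / (1 + ε) - 1) 0 = 0 := max_eq_right (by linarith)
  rw [hmax, add_zero] at hC₁
  have he : 4 * (1 / (1 + ε)) / 7 = 4 / (7 * (1 + ε)) := by
    field_simp
  rw [he] at hC₂
  refine ⟨max C₁ C₂, fun X hX => ?_⟩
  have hsub := sub_excB K ε hK hε X
  have hfin := Pool.Agent.H705R2.ABC2.excB_finite ((K⁻¹) ^ (1 / (1 + ε))) (1 / (1 + ε)) X
  refine ⟨hfin.subset hsub, ?_⟩
  have hcard : ((Exceptions K ε X).ncard : ℝ) ≤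
      ((Pool.Agent.H705R2.ABC2.ExcB ((K⁻¹) ^ (1 / (1 + ε))) (1 / (1 + ε)) X).ncard : ℝ) := by
    exact_mod_cast Set.ncard_le_ncard hsub hfin
  have hX0 : (0 : ℝ) ≤ (X : ℝ) := Nat.cast_nonneg X
  rcases min_choice (6 / 11 : ℝ) (4 / (7 * (1 + ε))) with h | h
  · rw [h]
    exact hcard.trans ((hC₁ X hX).trans
      (mul_le_mul_of_nonneg_right (le_max_left _ _) (Real.rpow_nonneg hX0 _)))
  · rw [h]
    exact hcard.trans ((hC₂ X hX).trans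
      (mul_le_mul_of_nonneg_right (le_max_right _ _) (Real.rpow_nonneg hX0 _)))

end Pool.Agent.Results.MP_7aad9f_nt.FewExceptions
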