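import Mathlib
import Pool.Agent.H390R2.Core

namespace Pool.Agent.Results.MP_7aad9f_nt.ManyGoodTriples

open Filter Topology

/-- the radical `R(m)`: the product of the distinct primes dividing `m` -/
def R (m : ℕ) : ℕ := ∏ p ∈ m.primeFactors, p

theorem choose_eps {K : ℝ} (hK0 : 0 ≤ K) (hK : K < √(8 / 9) * Real.exp (59 / 30)) :
    ∃ ε : ℝ, 0 < ε ∧ ε ≤ 1 / 4 ∧
      K ^ 2 * (1 + 2 * ε) * Real.exp (3 * ε) * 18 * Real.exp (-(44 / 15)) ≤
      (2 - ε) ^ 4 * Real.exp 1 * (1 - ε) := by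
  have h0 : K ^ 2 * 18 * Real.exp (-(44 / 15)) < 16 * Real.exp 1 := by
    have h1 : K ^ 2 < (8 / 9) * Real.exp (59 / 15) := by
      have h2 : K ^ 2 < (√(8 / 9) * Real.exp (59 / 30)) ^ 2 := by
        exact pow_lt_pow_left₀ hK hK0 two_ne_zero
      rw [mul_pow, Real.sq_sqrt (by norm_num), ← Real.exp_nat_mul] at h2
      have : ((2 : ℕ) : ℝ) * (59 / 30) = 59 / 15 := by norm_num
      rwa [this] at h2
    have h3 : Real.exp (59 / 15) * Real.exp (-(44 / 15)) = Real.exp 1 := by
      rw [← Real.exp_add]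
      norm_num
    have h4 : 0 < Real.exp (-(44 / 15) : ℝ) := Real.exp_pos _
    calc K ^ 2 * 18 * Real.exp (-(44 / 15)) < (8 / 9) * Real.exp (59 / 15) * 18 *
          Real.exp (-(44 / 15)) := by gcongr
      _ = 16 * (Real.exp (59 / 15) * Real.exp (-(44 / 15))) := by ring
      _ = 16 * Real.exp 1 := by rw [h3]
  have hc1 : Continuous (fun ε : ℝ =>
      K ^ 2 * (1 + 2 * ε) * Real.exp (3 * ε) * 18 * Real.exp (-(44 / 15))) := by fun_prop
  have hc2 : Continuous (fun ε : ℝ => (2 - ε) ^ 4 * Real.exp 1 * (1 - ε)) := by fun_prop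
  have hlt : ∀ᶠ ε : ℝ in 𝓝 0,
      K ^ 2 * (1 + 2 * ε) * Real.exp (3 * ε) * 18 * Real.exp (-(44 / 15)) <
      (2 - ε) ^ 4 * Real.exp 1 * (1 - ε) := by
    refine (hc1.tendsto 0).eventually_lt (hc2.tendsto 0) ?_
    simp only [mul_zero, add_zero, mul_one, sub_zero, Real.exp_zero]
    norm_num
    norm_num at h0
    linarith
  obtain ⟨δ, hδ0, hδ⟩ := Metric.eventually_nhds_iff.mp hlt
  refine ⟨min (δ / 2) (1 / 4), by positivity, min_le_right _ _, (hδ ?_).le⟩
  rw [Real.dist_eq, sub_zero, abs_of_pos (by positivity)]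
  exact lt_of_le_of_lt (min_le_left _ _) (by linarith)

/-- For every `K < √(8/9) * e ^ (59/30) = 6.738…` there are, for every `X`, coprime positive
integers `a`, `b` with `c = a + b > X` and
`c > R (abc) * exp (K * √(log c) / log (log c))`. -/
theorem result (K : ℝ) (hK : K < √(8 / 9) * Real.exp (59 / 30)) (X : ℝ) :
    ∃ a b c : ℕ, 0 < a ∧ 0 < b ∧ Nat.Coprime a b ∧ a + b = c ∧ X < c ∧
      (R (a * b * c) : ℝ) * Real.exp (K * √(Real.log c) / Real.log (Real.log c)) < c := by
  set K' : ℝ := max K 0 with hK'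
  have hK'0 : 0 ≤ K' := le_max_right _ _
  have hK'1 : K' < √(8 / 9) * Real.exp (59 / 30) := max_lt hK (by positivity)
  obtain ⟨ε, hε, hε1, h⟩ := choose_eps hK'0 hK'1
  obtain ⟨a, b, c, ⟨ha, hb, hc, habc, hab, hac, hbc⟩, hX, hlt⟩ :=
    Pool.Agent.H390R2.core hε hε1 hK'0 h (max X (Real.exp 1))
  have hc0 : (0 : ℝ) < c := by exact_mod_cast hc
  have hlogX : X < Real.log c := lt_of_le_of_lt (le_max_left _ _) hX
  have hlog1 : Real.exp 1 < Real.log c := lt_of_le_of_lt (le_max_right _ _) hX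
  refine ⟨a, b, c, ha, hb, hab, habc, ?_, ?_⟩
  · have := Real.log_le_sub_one_of_pos hc0
    linarith
  · have hR0 : 0 < Pool.Agent.H390R2.rad (a * b * c) := by
      refine Finset.prod_pos fun p hp => ?_
      exact (Nat.prime_of_mem_primeFactors hp).pos
    have hR : (0 : ℝ) < (R (a * b * c) : ℝ) := by exact_mod_cast hR0
    have hll : 0 < Real.log (Real.log c) := by
      apply Real.log_pos
      have : (1 : ℝ) < Real.exp 1 := Real.one_lt_exp_iff.mpr one_pos
      linarith
    have h1 : K * √(Real.log c) / Real.log (Real.log c) ≤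
        K' * √(Real.log c) / Real.log (Real.log c) := by
      have : K ≤ K' := le_max_left _ _
      gcongr
    have h2 : K * √(Real.log c) / Real.log (Real.log c) <
        Real.log c - Real.log (R (a * b * c)) := lt_of_le_of_lt h1 hlt
    calc (R (a * b * c) : ℝ) * Real.exp (K * √(Real.log c) / Real.log (Real.log c))
        < (R (a * b * c) : ℝ) * Real.exp (Real.log c - Real.log (R (a * b * c))) := by
          gcongr
      _ = c := by
          rw [Real.exp_sub, Real.exp_log hc0, Real.exp_log hR]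
          field_simp

end Pool.Agent.Results.MP_7aad9f_nt.ManyGoodTriples
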