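import Mathlib
import Pool.Agent.H755R4.Rob2

/-!
Multiples in abc-triples, in short intervals.

For every `ε > 0` there is `δ > 0` such that for all but at most a proportion `ε` of the integers
`n` of any interval `(b, b + Y]` with `Y ≥ (b + Y) ^ (1 - δ)`, every abc-triple (of any height)
with `n ∣ abc` satisfies `R (abc) > n ^ (1 + δ)`.
-/

namespace Pool.Agent.Results.MP_7aad9f_nt.MultiplesShort

/-- the radical: the product of the distinct primes dividing `m` -/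
def R (m : ℕ) : ℕ := ∏ p ∈ m.primeFactors, p

/-- `(u, v, w)` is an abc-triple: coprime positive integers with `u + v = w` -/
def Triple (u v w : ℕ) : Prop := 0 < u ∧ 0 < v ∧ Nat.Coprime u v ∧ u + v = w

/-- the integers `n` of the interval `(b, b + Y]` for which there is an abc-triple `(u, v, w)` of
any height with `n ∣ u v w` and with `R (u v w) ≤ n ^ (1 + δ)` -/
def Bad (δ : ℝ) (b Y : ℕ) : Set ℕ :=
  {n | b < n ∧ n ≤ b + Y ∧ ∃ u v w : ℕ, Triple u v w ∧ n ∣ u * v * w ∧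
    (R (u * v * w) : ℝ) ≤ (n : ℝ) ^ (1 + δ)}

/-- For every `ε > 0` there are `δ > 0` and `N₀` such that every interval `(b, b + Y]` with
`b + Y ≥ N₀` and `Y ≥ (b + Y) ^ (1 - δ)` contains at most `ε Y` integers `n` for which some
abc-triple (of any height) satisfies `n ∣ abc` and `R (abc) ≤ n ^ (1 + δ)`. -/
theorem result (ε : ℝ) (hε : 0 < ε) : ∃ δ : ℝ, 0 < δ ∧ ∃ N₀ : ℕ, ∀ b Y : ℕ, N₀ ≤ b + Y →
    ((b + Y : ℕ) : ℝ) ^ (1 - δ) ≤ Y →
    (Bad δ b Y).Finite ∧ ((Bad δ b Y).ncard : ℝ) ≤ ε * Y := by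
  obtain ⟨δ, hδ, N₀, h⟩ := Pool.Agent.H755R4.robust_short ε hε
  refine ⟨δ, hδ, N₀, fun b Y hN hY => ⟨?_, ?_⟩⟩
  · exact (Set.finite_Ioc b (b + Y)).subset (fun n hn => ⟨hn.1, hn.2.1⟩)
  · refine le_trans (le_of_eq ?_) (h b Y hN hY)
    congr 2
    ext n
    constructor
    · rintro ⟨h0, h1, u, v, w, ⟨hu, hv, huv, rfl⟩, hd, hr⟩
      exact ⟨h0, h1, u, v, hu, hv, huv, hd, hr⟩
    · rintro ⟨h0, h1, u, v, hu, hv, huv, hd, hr⟩
      exact ⟨h0, h1, u, v, u + v, ⟨hu, hv, huv, rfl⟩, hd, hr⟩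

end Pool.Agent.Results.MP_7aad9f_nt.MultiplesShort
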